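import Pool.Agent.R510.Flat

/-!
# The Liouville function is not flat from below

`m(N) = min_θ |∑_{n ≤ N} a(n) e^{2 π i n θ}|`.  For the Liouville function `liminf m(N) / √N = 0`; the same holds for
every sequence `a` of complex numbers of modulus one, and with any function tending to infinity in place of `√N`.

Proof.  Suppose that `m(N) → ∞`.  Let `p_N(z) = ∑_{n ≤ N} a(n) z^n`.  As `|p_N| > 1` on the unit circle for all
`N ≥ N₀`, the polynomials `p_N` and `p_{N+1} = p_N + a(N+1) z^{N+1}` have the same number `K` of zeros in the open unit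
disc (Rouché).  These zeros (except `0`) have absolute value at least `1/2`, so by Jensen's formula the geometric mean
of `|p_N|` on the circle is at most `2 ^ K`, for all `N ≥ N₀`.  But it is at least `m(N)`.
-/

set_option autoImplicit false

namespace Pool.Agent.Results.MP_69dca4_nt.LiminfZero

open Filter Topology
open scoped Real

/-- `S_N(θ) = ∑_{n=1}^N a(n) e^{2 π i n θ}` -/
noncomputable def S (a : ℕ → ℂ) (N : ℕ) (θ : ℝ) : ℂ :=
  ∑ n ∈ Finset.Icc 1 N, a n * Complex.exp (2 * π * Complex.I * n * θ)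

/-- `m(N) = min_θ |S_N(θ)|` -/
noncomputable def m (a : ℕ → ℂ) (N : ℕ) : ℝ := ⨅ θ : ℝ, ‖S a N θ‖

/-- the Liouville function, with complex values -/
noncomputable def lam (n : ℕ) : ℂ := (-1) ^ ArithmeticFunction.cardFactors n

theorem general (a : ℕ → ℂ) (ha : ∀ n, 1 ≤ n → ‖a n‖ = 1) (ψ : ℕ → ℝ) (hψ : Tendsto ψ atTop atTop) :
    liminf (fun N => m a N / ψ N) atTop = 0 := by
  have hm0 : ∀ N, 0 ≤ m a N := fun N => Real.iInf_nonneg fun θ => norm_nonneg _
  have h0 : ∀ᶠ N in atTop, (0 : ℝ) ≤ m a N / ψ N := by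
    filter_upwards [hψ.eventually_gt_atTop 0] with N hN
    exact div_nonneg (hm0 N) hN.le
  have h1 : ∀ b ∈ {b : ℝ | ∀ᶠ N in atTop, b ≤ m a N / ψ N}, b ≤ 0 := by
    intro b hb
    by_contra hpos
    rw [not_le] at hpos
    apply Pool.Agent.R510.Flat.frequently ha
    apply tendsto_atTop_mono' atTop _ (hψ.const_mul_atTop hpos)
    filter_upwards [hb, hψ.eventually_gt_atTop 0] with N hN hN0
    rw [le_div_iff₀ hN0] at hN
    exact hN
  rw [liminf_eq]
  apply le_antisymm
  · exact csSup_le ⟨0, h0⟩ h1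
  · exact le_csSup ⟨0, h1⟩ h0

/-- `liminf m(N) / √N = 0` for the Liouville function; more generally `liminf m(N) / ψ(N) = 0` for every sequence of
complex numbers of modulus one and every `ψ` tending to infinity. -/
theorem result :
    liminf (fun N : ℕ => m lam N / √(N : ℝ)) atTop = 0 ∧
    ∀ a : ℕ → ℂ, (∀ n, 1 ≤ n → ‖a n‖ = 1) → ∀ ψ : ℕ → ℝ, Tendsto ψ atTop atTop →
      liminf (fun N => m a N / ψ N) atTop = 0 := by
  refine ⟨general lam (fun n _ => ?_) _ ?_, general⟩
  · unfold lam
    rw [norm_pow, norm_neg, norm_one, one_pow]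
  · exact Real.tendsto_sqrt_atTop.comp tendsto_natCast_atTop_atTop

end Pool.Agent.Results.MP_69dca4_nt.LiminfZero
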